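import Pool.Agent.W902.C6.Stm

/-! Project C6, part PAR. -/

set_option autoImplicit false

open Pool.Agent.H800R3 Pool.Agent.W902.C6

namespace Pool.Agent.W724.C6.Par

/-- the projective map -/
noncomputable def psi (p : Pt) (v1 v2 ε : ℝ) (x : Pt) : Pt :=
  (p.1 + (x.1 - p.1) / (1 + ε * (v1 * (x.1 - p.1) + v2 * (x.2 - p.2))),
    p.2 + (x.2 - p.2) / (1 + ε * (v1 * (x.1 - p.1) + v2 * (x.2 - p.2))))

theorem D_aux (p x y z : Pt) (ox oy oz u1 v1 ε : ℝ) (hx : ox ≠ 0) (hy : oy ≠ 0) (hz : oz ≠ 0)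
    (hox : ox = 1 + ε * (u1 * (x.1 - p.1) + v1 * (x.2 - p.2)))
    (hoy : oy = 1 + ε * (u1 * (y.1 - p.1) + v1 * (y.2 - p.2)))
    (hoz : oz = 1 + ε * (u1 * (z.1 - p.1) + v1 * (z.2 - p.2))) :
    D (p.1 + (x.1 - p.1) / ox, p.2 + (x.2 - p.2) / ox)
      (p.1 + (y.1 - p.1) / oy, p.2 + (y.2 - p.2) / oy)
      (p.1 + (z.1 - p.1) / oz, p.2 + (z.2 - p.2) / oz) = D x y z / (ox * oy * oz) := by
  simp only [D]
  field_simp
  subst hox hoy hoz
  ring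

theorem D_psi (p : Pt) (v1 v2 ε : ℝ) (x y z : Pt)
    (hx : 1 + ε * (v1 * (x.1 - p.1) + v2 * (x.2 - p.2)) ≠ 0)
    (hy : 1 + ε * (v1 * (y.1 - p.1) + v2 * (y.2 - p.2)) ≠ 0)
    (hz : 1 + ε * (v1 * (z.1 - p.1) + v2 * (z.2 - p.2)) ≠ 0) :
    D (psi p v1 v2 ε x) (psi p v1 v2 ε y) (psi p v1 v2 ε z) =
      D x y z / ((1 + ε * (v1 * (x.1 - p.1) + v2 * (x.2 - p.2))) *
        (1 + ε * (v1 * (y.1 - p.1) + v2 * (y.2 - p.2))) *
        (1 + ε * (v1 * (z.1 - p.1) + v2 * (z.2 - p.2)))) :=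
  D_aux p x y z _ _ _ v1 v2 ε hx hy hz rfl rfl rfl

theorem line_aux (p x : Pt) (o C v1 v2 ε : ℝ) (ho : o ≠ 0) (hv : v1 ^ 2 + v2 ^ 2 ≠ 0)
    (ho' : o = 1 + ε * (v1 * (x.1 - p.1) + v2 * (x.2 - p.2)))
    (hC : v1 * (x.2 - p.2) - v2 * (x.1 - p.1) = C) :
    D (p.1 + C / (v1 ^ 2 + v2 ^ 2) * (-v2), p.2 + C / (v1 ^ 2 + v2 ^ 2) * v1)
        (p.1 + C / (v1 ^ 2 + v2 ^ 2) * (-v2) + (v1 + C * ε * v2),
          p.2 + C / (v1 ^ 2 + v2 ^ 2) * v1 + (v2 - C * ε * v1))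
        (p.1 + (x.1 - p.1) / o, p.2 + (x.2 - p.2) / o) = 0 := by
  simp only [D]
  have e : C / (v1 ^ 2 + v2 ^ 2) * (v1 ^ 2 + v2 ^ 2) = C := div_mul_cancel₀ _ hv
  generalize C / (v1 ^ 2 + v2 ^ 2) = k at e ⊢
  field_simp
  subst ho'
  subst hC
  linear_combination (-(1 + ε * (v1 * (x.1 - p.1) + v2 * (x.2 - p.2)))) * e

theorem main : S_par := by
  intro S a b c d p hab hcd h1 h2 hne hcr hS
  classical
  set v1 : ℝ := b.1 - a.1 with hv1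
  set v2 : ℝ := b.2 - a.2 with hv2
  have hv : 0 < v1 ^ 2 + v2 ^ 2 := by
    by_contra hcon
    have h3 : v1 = 0 := by nlinarith [sq_nonneg v1, sq_nonneg v2]
    have h4 : v2 = 0 := by nlinarith [sq_nonneg v1, sq_nonneg v2]
    exact hab (Prod.ext (by linarith) (by linarith))
  have hcr' : v1 * (d.2 - c.2) - v2 * (d.1 - c.1) = 0 := hcr
  obtain ⟨lam, hlam, hd1, hd2⟩ : ∃ lam : ℝ, lam ≠ 0 ∧ d.1 - c.1 = lam * v1 ∧
      d.2 - c.2 = lam * v2 := by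
    have e1 : d.1 - c.1 = (((d.1 - c.1) * v1 + (d.2 - c.2) * v2) / (v1 ^ 2 + v2 ^ 2)) * v1 := by
      field_simp
      linear_combination (-v2) * hcr'
    have e2 : d.2 - c.2 = (((d.1 - c.1) * v1 + (d.2 - c.2) * v2) / (v1 ^ 2 + v2 ^ 2)) * v2 := by
      field_simp
      linear_combination v1 * hcr'
    refine ⟨((d.1 - c.1) * v1 + (d.2 - c.2) * v2) / (v1 ^ 2 + v2 ^ 2), ?_, e1, e2⟩
    intro h0
    rw [h0, zero_mul] at e1 e2
    exact hcd (Prod.ext (by linarith) (by linarith))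
  -- coordinates
  set nn : Pt → ℝ := fun x => v1 * (x.2 - p.2) - v2 * (x.1 - p.1) with hnn
  set c1 : ℝ := nn a with hc1
  set c2 : ℝ := nn c with hc2
  have hDab : ∀ x, D a b x = nn x - c1 := by
    intro x
    simp only [D, hc1, hnn]
    ring
  have hDcd : ∀ x, D c d x = lam * (nn x - c2) := by
    intro x
    simp only [D, hc2, hnn]
    rw [hd1, hd2]
    ring
  have hp0 : nn p = 0 := by simp [hnn]
  have hc1n : c1 ≠ 0 := by
    intro h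
    apply h1
    rw [hDab, hp0, h, sub_zero]
  have hc2n : c2 ≠ 0 := by
    intro h
    apply h2
    rw [hDcd, hp0, h, sub_zero, mul_zero]
  have hc12 : c1 ≠ c2 := by
    intro h
    apply hne
    ext x
    simp only [lineSet, Set.mem_ofPred_eq, hDab, hDcd, ← h]
    constructor
    · intro hx
      rw [hx, mul_zero]
    · intro hx
      exact (mul_eq_zero.mp hx).resolve_left hlam
  -- the parameter
  set M : ℝ := ∑ x ∈ S, |v1 * (x.1 - p.1) + v2 * (x.2 - p.2)| with hM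
  have hM0 : 0 ≤ M := Finset.sum_nonneg (fun _ _ => abs_nonneg _)
  set ε : ℝ := 1 / (1 + M) with hε
  have hε0 : 0 < ε := by positivity
  have hom : ∀ x ∈ S, 0 < 1 + ε * (v1 * (x.1 - p.1) + v2 * (x.2 - p.2)) := by
    intro x hx
    have e1 : |v1 * (x.1 - p.1) + v2 * (x.2 - p.2)| ≤ M :=
      Finset.single_le_sum (f := fun x : Pt => |v1 * (x.1 - p.1) + v2 * (x.2 - p.2)|)
        (fun _ _ => abs_nonneg _) hx
    have e2 := neg_abs_le (v1 * (x.1 - p.1) + v2 * (x.2 - p.2))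
    have e3 : ε * (1 + M) = 1 := by
      rw [hε]
      field_simp
    nlinarith
  set ψ : Pt → Pt := psi p v1 v2 ε with hψ
  have hinj : ∀ x ∈ S, ∀ y ∈ S, ψ x = ψ y → x = y := by
    intro x hx y hy h
    have ox := hom x hx
    have oy := hom y hy
    have q1 := congrArg Prod.fst h
    have q2 := congrArg Prod.snd h
    simp only [hψ, psi, add_right_inj] at q1 q2
    rw [div_eq_div_iff ox.ne' oy.ne'] at q1 q2
    have q3 : (1 + ε * (v1 * (x.1 - p.1) + v2 * (x.2 - p.2))) =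
        1 + ε * (v1 * (y.1 - p.1) + v2 * (y.2 - p.2)) := by
      linear_combination (ε * v1) * q1 + (ε * v2) * q2
    rw [← q3] at q1 q2
    have r1 := mul_right_cancel₀ ox.ne' q1
    have r2 := mul_right_cancel₀ ox.ne' q2
    exact Prod.ext (by linarith) (by linarith)
  have hsame : SameConf S (S.image ψ) := by
    refine ⟨Equiv.ofBijective (fun x : S => (⟨ψ x.1, Finset.mem_image_of_mem ψ x.2⟩ :
      (S.image ψ : Finset Pt))) ⟨?_, ?_⟩, ?_⟩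
    · intro x y h
      exact Subtype.ext (hinj x.1 x.2 y.1 y.2 (congrArg Subtype.val h))
    · rintro ⟨y, hy⟩
      obtain ⟨x, hx, rfl⟩ := Finset.mem_image.mp hy
      exact ⟨⟨x, hx⟩, rfl⟩
    · intro x y z
      have ox := hom x.1 x.2
      have oy := hom y.1 y.2
      have oz := hom z.1 z.2
      change SignType.sign (D (psi p v1 v2 ε x.1) (psi p v1 v2 ε y.1) (psi p v1 v2 ε z.1)) =
        SignType.sign (D x.1 y.1 z.1)
      rw [D_psi p v1 v2 ε x.1 y.1 z.1 ox.ne' oy.ne' oz.ne']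
      have hpos := mul_pos (mul_pos ox oy) oz
      rw [div_eq_mul_inv, sign_mul, sign_pos (inv_pos.mpr hpos), mul_one]
  -- the new lines
  have hline : ∀ (C : ℝ) (x : Pt) , (C = c1 ∨ C = c2) → x ∈ S → nn x = C →
      D (p.1 + C / (v1 ^ 2 + v2 ^ 2) * (-v2), p.2 + C / (v1 ^ 2 + v2 ^ 2) * v1)
        (p.1 + C / (v1 ^ 2 + v2 ^ 2) * (-v2) + (v1 + C * ε * v2),
          p.2 + C / (v1 ^ 2 + v2 ^ 2) * v1 + (v2 - C * ε * v1)) (ψ x) = 0 := by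
    intro C x _ hx hC
    exact line_aux p x _ C v1 v2 ε (hom x hx).ne' hv.ne' rfl hC
  have hoff : ∀ C : ℝ, D (p.1 + C / (v1 ^ 2 + v2 ^ 2) * (-v2), p.2 + C / (v1 ^ 2 + v2 ^ 2) * v1)
        (p.1 + C / (v1 ^ 2 + v2 ^ 2) * (-v2) + (v1 + C * ε * v2),
          p.2 + C / (v1 ^ 2 + v2 ^ 2) * v1 + (v2 - C * ε * v1)) p = -C := by
    intro C
    simp only [D]
    field_simp
    ring
  have hψp : ψ p = p := by
    simp [hψ, psi]
  refine ⟨S.image ψ, (p.1 + c1 / (v1 ^ 2 + v2 ^ 2) * (-v2), p.2 + c1 / (v1 ^ 2 + v2 ^ 2) * v1),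
    (p.1 + c1 / (v1 ^ 2 + v2 ^ 2) * (-v2) + (v1 + c1 * ε * v2),
          p.2 + c1 / (v1 ^ 2 + v2 ^ 2) * v1 + (v2 - c1 * ε * v1)),
    (p.1 + c2 / (v1 ^ 2 + v2 ^ 2) * (-v2), p.2 + c2 / (v1 ^ 2 + v2 ^ 2) * v1),
    (p.1 + c2 / (v1 ^ 2 + v2 ^ 2) * (-v2) + (v1 + c2 * ε * v2),
          p.2 + c2 / (v1 ^ 2 + v2 ^ 2) * v1 + (v2 - c2 * ε * v1)), p, hsame, ?_, ?_, ?_, ?_⟩
  rotate_left 3
  · intro y hy
    obtain ⟨x, hx, rfl⟩ := Finset.mem_image.mp hy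
    rcases hS x hx with rfl | h | h
    · exact Or.inl hψp
    · refine Or.inr (Or.inl (hline c1 x (Or.inl rfl) hx ?_))
      have := hDab x
      rw [h] at this
      linarith
    · refine Or.inr (Or.inr (hline c2 x (Or.inr rfl) hx ?_))
      have := hDcd x
      rw [h] at this
      have h3 := (mul_eq_zero.mp this.symm).resolve_left hlam
      linarith
  · rw [hoff]
    exact neg_ne_zero.mpr hc1n
  · rw [hoff]
    exact neg_ne_zero.mpr hc2n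
  · simp only [cross]
    have : (p.1 + c1 / (v1 ^ 2 + v2 ^ 2) * (-v2) + (v1 + c1 * ε * v2) -
        (p.1 + c1 / (v1 ^ 2 + v2 ^ 2) * (-v2))) *
        (p.2 + c2 / (v1 ^ 2 + v2 ^ 2) * v1 + (v2 - c2 * ε * v1) -
          (p.2 + c2 / (v1 ^ 2 + v2 ^ 2) * v1)) -
        (p.2 + c1 / (v1 ^ 2 + v2 ^ 2) * v1 + (v2 - c1 * ε * v1) -
          (p.2 + c1 / (v1 ^ 2 + v2 ^ 2) * v1)) *
        (p.1 + c2 / (v1 ^ 2 + v2 ^ 2) * (-v2) + (v1 + c2 * ε * v2) -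
          (p.1 + c2 / (v1 ^ 2 + v2 ^ 2) * (-v2))) = (c1 - c2) * ε * (v1 ^ 2 + v2 ^ 2) := by ring
    rw [this]
    exact mul_ne_zero (mul_ne_zero (sub_ne_zero.mpr hc12) hε0.ne') hv.ne'

end Pool.Agent.W724.C6.Par
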